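import Pool.Agent.helper1.PR.Defs

/-!
Counting in cells (part F of the project on MP_15abe0_co).
-/

namespace Pool.Agent.helper1.PR

open Finset

/-- the number of `a` with `a % M = r` and `⌊a s / Λ⌋ = v`, where `Λ = M s k` -/
private theorem card_line_h40 {M s k : ℕ} (hM : 0 < M) (hs : 0 < s) (hk : 0 < k) {A B r v : ℤ}
    (hr : 0 ≤ r) (hr' : r < M) (hA : A ≤ M * k * v) (hB : M * k * (v + 1) ≤ B) :
    #{a ∈ Ico A B | a % M = r ∧ a * s / ((M * s * k : ℕ) : ℤ) = v} = k := by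
  have hM' : (0 : ℤ) < M := by exact_mod_cast hM
  have hs' : (0 : ℤ) < s := by exact_mod_cast hs
  have hk' : (0 : ℤ) < k := by exact_mod_cast hk
  have hdiv : ∀ a : ℤ, a * s / ((M * s * k : ℕ) : ℤ) = a / (M * k) := by
    intro a
    have h1 : ((M * s * k : ℕ) : ℤ) = (M * k) * s := by push_cast; ring
    rw [h1, Int.mul_ediv_mul_of_pos_left _ _ hs']
  have hE : {a ∈ Ico A B | a % M = r ∧ a * s / ((M * s * k : ℕ) : ℤ) = v} =
      (range k).image (fun j : ℕ => (M : ℤ) * (k * v + j) + r) := by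
    ext a
    simp only [mem_filter, mem_Ico, mem_image, mem_range, hdiv]
    constructor
    · rintro ⟨_, h1, h2⟩
      have h3 : (M : ℤ) * (a / M) + a % M = a := Int.mul_ediv_add_emod a M
      have h4 : a / M / k = v := by rw [Int.ediv_ediv_of_nonneg hM'.le, h2]
      have h5 : (k : ℤ) * (a / M / k) + (a / M) % k = a / M := Int.mul_ediv_add_emod _ _
      have h6 : 0 ≤ (a / M) % k := Int.emod_nonneg _ hk'.ne'
      have h7 : (a / M) % k < k := Int.emod_lt_of_pos _ hk'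
      refine ⟨((a / M) % k).toNat, by omega, ?_⟩
      rw [Int.toNat_of_nonneg h6, ← h1]
      rw [h4] at h5
      rw [h5, h3]
    · rintro ⟨j, hj, rfl⟩
      have hj' : (j : ℤ) < k := by exact_mod_cast hj
      have hj0 : (0 : ℤ) ≤ j := by positivity
      have h1 : (M : ℤ) * (j + 1) ≤ M * k := by
        apply mul_le_mul_of_nonneg_left _ hM'.le; linarith
      have h0 : (0 : ℤ) ≤ M * j := by positivity
      refine ⟨⟨?_, ?_⟩, ?_, ?_⟩
      · nlinarith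
      · nlinarith
      · rw [Int.mul_add_emod_self_left]
        exact Int.emod_eq_of_lt hr hr'
      · rw [Int.ediv_eq_iff_of_pos (by positivity)]
        constructor <;> nlinarith
  rw [hE, card_image_of_injective, card_range]
  intro i j hij
  have : (M : ℤ) * i = M * j := by
    have h : (M : ℤ) * (k * v + i) + r = (M : ℤ) * (k * v + j) + r := hij
    linarith
  have h2 := mul_left_cancel₀ hM'.ne' this
  exact_mod_cast h2

theorem lab_mem_labs {M s Λ : ℕ} (hM : 0 < M) (hs : 0 < s) {x : ℤ√2} (hx : x ∈ box Λ) :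
    lab M s Λ x ∈ labs M s := by
  rw [mem_box] at hx
  obtain ⟨⟨h1, h2⟩, h3, h4⟩ := hx
  have hM' : (0 : ℤ) < M := by exact_mod_cast hM
  have hs' : (0 : ℤ) < s := by exact_mod_cast hs
  have hL : (0 : ℤ) < Λ := by linarith
  simp only [labs, lab, mem_product, mem_Ico]
  refine ⟨⟨Int.emod_nonneg _ hM'.ne', Int.emod_lt_of_pos _ hM'⟩,
    ⟨Int.emod_nonneg _ hM'.ne', Int.emod_lt_of_pos _ hM'⟩, ⟨?_, ?_⟩, ⟨?_, ?_⟩⟩
  · rw [Int.le_ediv_iff_mul_le hL]
    nlinarith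
  · rw [Int.ediv_lt_iff_lt_mul hL]
    nlinarith
  · rw [Int.le_ediv_iff_mul_le hL]
    nlinarith
  · rw [Int.ediv_lt_iff_lt_mul hL]
    nlinarith

theorem card_cell {M s Λ : ℕ} (hM : 0 < M) (hs : 0 < s) (hΛ : 0 < Λ) (h : M * s ∣ Λ)
    {ℓ : ℤ × ℤ × ℤ × ℤ} (hℓ : ℓ ∈ labs M s) :
    #{x ∈ box Λ | lab M s Λ x = ℓ} = (Λ / (M * s)) ^ 2 := by
  obtain ⟨k, rfl⟩ := h
  obtain ⟨r₁, r₂, v₁, v₂⟩ := ℓ
  simp only [labs, mem_product, mem_Ico] at hℓ
  obtain ⟨⟨h1, h2⟩, ⟨h3, h4⟩, ⟨h5, h6⟩, h7, h8⟩ := hℓ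
  have hk : 0 < k := Nat.pos_of_mul_pos_left hΛ
  have hM' : (0 : ℤ) < M := by exact_mod_cast hM
  have hs' : (0 : ℤ) < s := by exact_mod_cast hs
  have hk' : (0 : ℤ) < k := by exact_mod_cast hk
  have hMk : (0 : ℤ) < M * k := by positivity
  rw [Nat.mul_div_cancel_left _ (by positivity)]
  have c1 := card_line_h40 hM hs hk (A := 2 * ((M * s * k : ℕ) : ℤ))
    (B := 4 * ((M * s * k : ℕ) : ℤ)) (v := v₁) h1 h2 (by push_cast; nlinarith)
    (by push_cast; nlinarith)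
  have c2 := card_line_h40 hM hs hk (A := 0) (B := ((M * s * k : ℕ) : ℤ)) (v := v₂) h3 h4
    (by positivity) (by push_cast; nlinarith)
  rw [card_eq_sum_ones, sum_filter, sum_box]
  rw [card_eq_sum_ones, sum_filter] at c1 c2
  calc ∑ a ∈ Ico (2 * ((M * s * k : ℕ) : ℤ)) (4 * ((M * s * k : ℕ) : ℤ)),
        ∑ b ∈ Ico (0 : ℤ) ((M * s * k : ℕ) : ℤ),
          (if lab M s (M * s * k) ⟨a, b⟩ = (r₁, r₂, v₁, v₂) then 1 else 0)
      = ∑ a ∈ Ico (2 * ((M * s * k : ℕ) : ℤ)) (4 * ((M * s * k : ℕ) : ℤ)),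
        ∑ b ∈ Ico (0 : ℤ) ((M * s * k : ℕ) : ℤ),
          (if a % M = r₁ ∧ a * s / ((M * s * k : ℕ) : ℤ) = v₁ then 1 else 0) *
          (if b % M = r₂ ∧ b * s / ((M * s * k : ℕ) : ℤ) = v₂ then 1 else 0) := by
        refine sum_congr rfl fun a _ => sum_congr rfl fun b _ => ?_
        have hiff : lab M s (M * s * k) ⟨a, b⟩ = (r₁, r₂, v₁, v₂) ↔
            (a % M = r₁ ∧ a * s / ((M * s * k : ℕ) : ℤ) = v₁) ∧
              (b % M = r₂ ∧ b * s / ((M * s * k : ℕ) : ℤ) = v₂) := by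
          simp only [lab, Prod.mk.injEq]
          tauto
        rw [if_congr hiff rfl rfl]
        by_cases hP : (a % M = r₁ ∧ a * s / ((M * s * k : ℕ) : ℤ) = v₁)
        · by_cases hQ : (b % M = r₂ ∧ b * s / ((M * s * k : ℕ) : ℤ) = v₂)
          · rw [if_pos ⟨hP, hQ⟩, if_pos hP, if_pos hQ]
          · rw [if_neg (fun h => hQ h.2), if_neg hQ, mul_zero]
        · rw [if_neg (fun h => hP h.1), if_neg hP, zero_mul]
    _ = k ^ 2 := by
        simp_rw [← mul_sum, c2, ← sum_mul, c1]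
        ring

theorem sum_lab {M s Λ : ℕ} (hM : 0 < M) (hs : 0 < s) (hΛ : 0 < Λ) (h : M * s ∣ Λ)
    (F : ℤ × ℤ × ℤ × ℤ → ℝ) :
    ∑ x ∈ box Λ, F (lab M s Λ x) = ((Λ : ℝ) / (M * s)) ^ 2 * ∑ ℓ ∈ labs M s, F ℓ := by
  rw [← sum_fiberwise_of_maps_to (fun x hx => lab_mem_labs hM hs hx), mul_sum]
  refine sum_congr rfl fun ℓ hℓ => ?_
  rw [sum_congr rfl (g := fun _ => F ℓ) (fun x hx => by rw [(mem_filter.mp hx).2]), sum_const,
    card_cell hM hs hΛ h hℓ, nsmul_eq_mul]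
  congr 1
  rw [Nat.cast_pow, Nat.cast_div h (by positivity)]
  push_cast
  rfl

theorem sum_mul_lab {M s Λ : ℕ} (hM : 0 < M) (hs : 0 < s) (hΛ : 0 < Λ) (h : M * s ∣ Λ)
    (f : ℤ√2 → ℝ) (F : ℤ × ℤ × ℤ × ℤ → ℝ) :
    ∑ x ∈ box Λ, f x * F (lab M s Λ x) =
      ((Λ : ℝ) / (M * s)) ^ 2 * ∑ ℓ ∈ labs M s, cden M s Λ f ℓ * F ℓ := by
  rw [← sum_fiberwise_of_maps_to (fun x hx => lab_mem_labs hM hs hx), mul_sum]
  refine sum_congr rfl fun ℓ hℓ => ?_
  rw [sum_congr rfl (g := fun x => f x * F ℓ) (fun x hx => by rw [(mem_filter.mp hx).2]),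
    ← sum_mul, ← mul_assoc]
  congr 1
  have hc := card_cell hM hs hΛ h hℓ
  have hc' : (#{x ∈ box Λ | lab M s Λ x = ℓ} : ℝ) = ((Λ : ℝ) / (M * s)) ^ 2 := by
    rw [hc, Nat.cast_pow, Nat.cast_div h (by positivity)]
    push_cast
    rfl
  rw [cden, dens, hc', mul_div_cancel₀]
  have : (0 : ℝ) < Λ := by exact_mod_cast hΛ
  have : (0 : ℝ) < M := by exact_mod_cast hM
  have : (0 : ℝ) < s := by exact_mod_cast hs
  positivity

end Pool.Agent.helper1.PR
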