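import Pool.Agent.helper76.PR.J01

/-!
Number of representations (part J3 of the project on MP_15abe0_co).
-/

namespace Pool.Agent.helper1.PR

open Finset

/-- two pairs in `Om` with the same value of `xx` and the same `w` are equal -/
private theorem pair_eq_h40 {Q' Lw Ly : ℕ} (hQ : 0 < Q') {N : ℤ√2} {p q : ℤ√2 × ℤ√2}
    (hp : p ∈ Om Q' Lw Ly) (hq : q ∈ Om Q' Lw Ly) (h : xx Q' N p = xx Q' N q)
    (h1 : p.1 = q.1) : p = q := by
  have hQ' : (0 : ℤ) < Q' := by exact_mod_cast hQ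
  simp only [Om, mem_filter] at hp hq
  obtain ⟨_, hp1, hp2⟩ := hp
  obtain ⟨_, hq1, hq2⟩ := hq
  have ht : tt Q' p = tt Q' q := by
    unfold xx at h
    rw [h1] at h
    exact add_left_cancel h
  have hre := congrArg Zsqrtd.re ht
  have him := congrArg Zsqrtd.im ht
  simp only [tt] at hre him
  have e1 : p.1.im - p.2.im = q.1.im - q.2.im := by
    rw [← Int.mul_ediv_cancel' hp2, ← Int.mul_ediv_cancel' hq2, hre]
  have e2 : p.1.re - p.2.re = q.1.re - q.2.re := by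
    rw [← Int.mul_ediv_cancel' hp1, ← Int.mul_ediv_cancel' hq1, him]
  rw [h1] at e1 e2
  refine Prod.ext h1 ?_
  apply Zsqrtd.ext <;> linarith

/-- `|u|` is bounded if `N u` is -/
private theorem u_bound_h40 {a b u v C : ℝ} (hab : 0 ≤ a - 2 * |b|) (h1 : |a * u + 2 * b * v| ≤ C)
    (h2 : |a * v + b * u| ≤ C) : (a - 2 * |b|) * |u| ≤ C ∧ (a - 2 * |b|) * |v| ≤ C := by
  have hb : 0 ≤ |b| := abs_nonneg b
  have ha : 0 ≤ a := by linarith
  have key1 : a * |u| - 2 * |b| * |v| ≤ C := by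
    have : |a * u| - |2 * b * v| ≤ |a * u + 2 * b * v| := by
      have := abs_sub_abs_le_abs_sub (a * u) (-(2 * b * v))
      rw [abs_neg, sub_neg_eq_add] at this
      exact this
    rw [abs_mul, abs_of_nonneg ha, abs_mul, abs_mul, abs_of_pos (by norm_num : (0 : ℝ) < 2)] at this
    linarith
  have key2 : a * |v| - |b| * |u| ≤ C := by
    have : |a * v| - |b * u| ≤ |a * v + b * u| := by
      have := abs_sub_abs_le_abs_sub (a * v) (-(b * u))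
      rw [abs_neg, sub_neg_eq_add] at this
      exact this
    rw [abs_mul, abs_of_nonneg ha, abs_mul] at this
    linarith
  rcases le_total |u| |v| with huv | huv
  · have h3 : (a - 2 * |b|) * |v| ≤ C := by
      have : |b| * |u| ≤ |b| * |v| := mul_le_mul_of_nonneg_left huv hb
      have h0 : 0 ≤ |b| * |v| := by positivity
      nlinarith
    exact ⟨(mul_le_mul_of_nonneg_left huv hab).trans h3, h3⟩
  · have h3 : (a - 2 * |b|) * |u| ≤ C := by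
      have : |b| * |v| ≤ |b| * |u| := mul_le_mul_of_nonneg_left huv hb
      nlinarith
    exact ⟨h3, (mul_le_mul_of_nonneg_left huv hab).trans h3⟩

/-- two points of the fibre are close -/
private theorem close_h40 {Q' T h L : ℕ} (hQ : 0 < Q') (hT : 0 < T) (hh : 0 < h)
    {δ : ℝ} (hδ : δ ≤ 1 / 16)
    {N z : ℤ√2} (hN : 4 * (Q' : ℤ√2) * N = z ^ 3 - 2 * Zsqrtd.sqrtd)
    (hz : Near δ (h * (2 * Q') * T) z) {p q : ℤ√2 × ℤ√2}
    (hp : p ∈ Om Q' L (h ^ 3 * L)) (hq : q ∈ Om Q' L (h ^ 3 * L))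
    (hpq : xx Q' N p = xx Q' N q) :
    5 * ((2 * Q' * T : ℕ) : ℝ) ^ 3 * |((p.1.re - q.1.re : ℤ) : ℝ)| ≤ 32 * L ∧
      5 * ((2 * Q' * T : ℕ) : ℝ) ^ 3 * |((p.1.im - q.1.im : ℤ) : ℝ)| ≤ 32 * L := by
  have hQ' : (0 : ℝ) < Q' := by exact_mod_cast hQ
  have hQz : (0 : ℤ) < Q' := by exact_mod_cast hQ
  have hT' : (1 : ℝ) ≤ T := by exact_mod_cast hT
  have hh' : (1 : ℝ) ≤ h := by exact_mod_cast hh
  have hQ1 : (1 : ℝ) ≤ Q' := by exact_mod_cast hQ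
  set Z : ℝ := ((h * (2 * Q') * T : ℕ) : ℝ) with hZdef
  have hZ : 2 ≤ Z := by
    have h1 : (1 : ℝ) ≤ h * Q' * T := by
      have h2 : (1 : ℝ) ≤ h * Q' := by nlinarith
      nlinarith
    rw [hZdef]; push_cast
    nlinarith
  obtain ⟨hz1, hz2⟩ := hz
  rw [← hZdef] at hz1 hz2
  have hZ3 : 8 ≤ Z ^ 3 := by
    calc (8 : ℝ) = 2 ^ 3 := by norm_num
      _ ≤ Z ^ 3 := pow_le_pow_left₀ (by norm_num) hZ 3
  -- the coordinates of `N`
  have hre : 4 * (Q' : ℝ) * (N.re : ℝ) = ((z ^ 3).re : ℝ) := by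
    have := congrArg Zsqrtd.re hN
    simp only [Zsqrtd.re_mul, Zsqrtd.re_sub, Zsqrtd.im_mul, Zsqrtd.re_natCast, Zsqrtd.im_natCast,
      Zsqrtd.re_ofNat, Zsqrtd.im_ofNat, Zsqrtd.re_sqrtd, Zsqrtd.im_sqrtd, Nat.cast_ofNat] at this
    have h' : (4 * (Q' : ℤ) * N.re : ℤ) = (z ^ 3).re := by linarith
    exact_mod_cast h'
  have him : 4 * (Q' : ℝ) * (N.im : ℝ) = ((z ^ 3).im : ℝ) - 2 := by
    have := congrArg Zsqrtd.im hN
    simp only [Zsqrtd.re_mul, Zsqrtd.im_sub, Zsqrtd.im_mul, Zsqrtd.re_natCast, Zsqrtd.im_natCast,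
      Zsqrtd.re_ofNat, Zsqrtd.im_ofNat, Zsqrtd.re_sqrtd, Zsqrtd.im_sqrtd, Nat.cast_ofNat] at this
    have h' : (4 * (Q' : ℤ) * N.im : ℤ) = (z ^ 3).im - 2 := by linarith
    exact_mod_cast h'
  -- the coordinates of `tt`
  have hfac : ∀ r : ℤ√2 × ℤ√2, r ∈ Om Q' L (h ^ 3 * L) →
      (Q' : ℝ) * ((tt Q' r).re : ℝ) = (r.1.im : ℝ) - r.2.im ∧
      2 * (Q' : ℝ) * ((tt Q' r).im : ℝ) = (r.1.re : ℝ) - r.2.re := by
    intro r hr
    simp only [Om, mem_filter] at hr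
    obtain ⟨_, hr1, hr2⟩ := hr
    have e1 : (Q' : ℤ) * (tt Q' r).re = r.1.im - r.2.im := Int.mul_ediv_cancel' hr2
    have e2 : 2 * (Q' : ℤ) * (tt Q' r).im = r.1.re - r.2.re := Int.mul_ediv_cancel' hr1
    exact ⟨by exact_mod_cast e1, by exact_mod_cast e2⟩
  obtain ⟨hp1, hp2⟩ := hfac p hp
  obtain ⟨hq1, hq2⟩ := hfac q hq
  -- the equation for the differences
  have ere : (N.re : ℝ) * ((p.1.re : ℝ) - q.1.re) + 2 * N.im * ((p.1.im : ℝ) - q.1.im) =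
      -(((tt Q' p).re : ℝ) - (tt Q' q).re) := by
    have := congrArg Zsqrtd.re hpq
    simp only [xx, Zsqrtd.re_add, Zsqrtd.re_mul] at this
    have h' : (((N.re * p.1.re + 2 * N.im * p.1.im + (tt Q' p).re : ℤ)) : ℝ) =
      ((N.re * q.1.re + 2 * N.im * q.1.im + (tt Q' q).re : ℤ) : ℝ) := by exact_mod_cast this
    push_cast at h'
    linarith
  have eim : (N.re : ℝ) * ((p.1.im : ℝ) - q.1.im) + N.im * ((p.1.re : ℝ) - q.1.re) =
      -(((tt Q' p).im : ℝ) - (tt Q' q).im) := by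
    have := congrArg Zsqrtd.im hpq
    simp only [xx, Zsqrtd.im_add, Zsqrtd.im_mul] at this
    have h' : (((N.re * p.1.im + N.im * p.1.re + (tt Q' p).im : ℤ)) : ℝ) =
      ((N.re * q.1.im + N.im * q.1.re + (tt Q' q).im : ℤ) : ℝ) := by exact_mod_cast this
    push_cast at h'
    linarith
  -- positions
  have hbox : ∀ r : ℤ√2 × ℤ√2, r ∈ Om Q' L (h ^ 3 * L) →
      (2 * (L : ℝ) ≤ r.1.re ∧ (r.1.re : ℝ) ≤ 4 * L ∧ 0 ≤ (r.1.im : ℝ) ∧ (r.1.im : ℝ) ≤ L) ∧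
      (2 * ((h : ℝ) ^ 3 * L) ≤ r.2.re ∧ (r.2.re : ℝ) ≤ 4 * ((h : ℝ) ^ 3 * L) ∧
        0 ≤ (r.2.im : ℝ) ∧ (r.2.im : ℝ) ≤ (h : ℝ) ^ 3 * L) := by
    intro r hr
    simp only [Om, mem_filter, mem_product, mem_box] at hr
    obtain ⟨⟨⟨⟨a1, a2⟩, a3, a4⟩, ⟨a5, a6⟩, a7, a8⟩, _⟩ := hr
    refine ⟨⟨by exact_mod_cast a1, by exact_mod_cast a2.le, by exact_mod_cast a3,
      by exact_mod_cast a4.le⟩, by exact_mod_cast a5, by exact_mod_cast a6.le,
      by exact_mod_cast a7, by exact_mod_cast a8.le⟩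
  obtain ⟨⟨b1, b2, b3, b4⟩, b5, b6, b7, b8⟩ := hbox p hp
  obtain ⟨⟨c1, c2, c3, c4⟩, c5, c6, c7, c8⟩ := hbox q hq
  have hL0 : (0 : ℝ) ≤ L := by positivity
  have hh3 : (1 : ℝ) ≤ (h : ℝ) ^ 3 := one_le_pow₀ hh'
  set Y : ℝ := (h : ℝ) ^ 3 * L with hY
  have hLY : (L : ℝ) ≤ Y := by rw [hY]; nlinarith
  have d1 : |((tt Q' p).re : ℝ) - (tt Q' q).re| ≤ 2 * Y / Q' := by
    rw [le_div_iff₀ hQ']
    have h1 : (((tt Q' p).re : ℝ) - (tt Q' q).re) * Q' = ((p.1.im : ℝ) - p.2.im) -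
      ((q.1.im : ℝ) - q.2.im) := by rw [← hp1, ← hq1]; ring
    have h2 : |(((tt Q' p).re : ℝ) - (tt Q' q).re) * Q'| ≤ 2 * Y := by
      rw [h1, abs_le]
      constructor <;> linarith
    rwa [abs_mul, abs_of_pos hQ'] at h2
  have d2 : |((tt Q' p).im : ℝ) - (tt Q' q).im| ≤ 2 * Y / Q' := by
    rw [le_div_iff₀ hQ']
    have h1 : (((tt Q' p).im : ℝ) - (tt Q' q).im) * Q' = (((p.1.re : ℝ) - p.2.re) -
      ((q.1.re : ℝ) - q.2.re)) / 2 := by rw [← hp2, ← hq2]; ring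
    have h2 : |(((tt Q' p).im : ℝ) - (tt Q' q).im) * Q'| ≤ 2 * Y := by
      rw [h1, abs_le]
      constructor <;> linarith
    rwa [abs_mul, abs_of_pos hQ'] at h2
  have him2 : |4 * (Q' : ℝ) * (N.im : ℝ)| ≤ δ * Z ^ 3 + 2 := by
    rw [him]
    calc |((z ^ 3).im : ℝ) - 2| ≤ |((z ^ 3).im : ℝ)| + |(2 : ℝ)| := abs_sub _ _
      _ ≤ δ * Z ^ 3 + 2 := by
        rw [abs_of_pos (by norm_num : (0 : ℝ) < 2)]; linarith
  rw [abs_mul, abs_of_pos (by positivity : (0 : ℝ) < 4 * Q')] at him2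
  have hre2 : (2 - δ) * Z ^ 3 ≤ 4 * (Q' : ℝ) * (N.re : ℝ) := by
    rw [hre]
    have := (abs_le.mp hz1).1
    linarith
  have hgap : 5 / 4 * Z ^ 3 ≤ 4 * (Q' : ℝ) * ((N.re : ℝ) - 2 * |(N.im : ℝ)|) := by
    have : δ * Z ^ 3 ≤ 1 / 16 * Z ^ 3 := mul_le_mul_of_nonneg_right hδ (by positivity)
    nlinarith
  have hgap0 : 0 ≤ (N.re : ℝ) - 2 * |(N.im : ℝ)| := by
    by_contra hc
    push Not at hc
    have : 4 * (Q' : ℝ) * ((N.re : ℝ) - 2 * |(N.im : ℝ)|) < 0 :=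
      mul_neg_of_pos_of_neg (by positivity) hc
    linarith
  obtain ⟨r1, r2⟩ := u_bound_h40 (C := 2 * Y / Q') hgap0
    (by rw [ere, abs_neg]; exact d1) (by rw [eim, abs_neg]; exact d2)
  have hfin : ∀ u : ℝ, ((N.re : ℝ) - 2 * |(N.im : ℝ)|) * |u| ≤ 2 * Y / Q' →
      5 * ((2 * Q' * T : ℕ) : ℝ) ^ 3 * |u| ≤ 32 * L := by
    intro u hu
    have h1 : 5 / 4 * Z ^ 3 * |u| ≤ 8 * Y := by
      calc 5 / 4 * Z ^ 3 * |u| ≤ 4 * (Q' : ℝ) * ((N.re : ℝ) - 2 * |(N.im : ℝ)|) * |u| :=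
            mul_le_mul_of_nonneg_right hgap (abs_nonneg u)
        _ = 4 * (Q' : ℝ) * (((N.re : ℝ) - 2 * |(N.im : ℝ)|) * |u|) := by ring
        _ ≤ 4 * (Q' : ℝ) * (2 * Y / Q') := mul_le_mul_of_nonneg_left hu (by positivity)
        _ = 8 * Y := by field_simp; ring
    have h2 : Z ^ 3 = (h : ℝ) ^ 3 * ((2 * Q' * T : ℕ) : ℝ) ^ 3 := by
      rw [hZdef]; push_cast; ring
    rw [h2, hY] at h1
    have h3 : (h : ℝ) ^ 3 * (5 * ((2 * Q' * T : ℕ) : ℝ) ^ 3 * |u|) ≤ (h : ℝ) ^ 3 * (32 * L) := by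
      linarith
    exact le_of_mul_le_mul_left h3 (by linarith)
  refine ⟨?_, ?_⟩
  · have := hfin _ r1
    push_cast at this ⊢
    exact this
  · have := hfin _ r2
    push_cast at this ⊢
    exact this

theorem repr_Om {Q' T h L : ℕ} (hQ : 0 < Q') (hT : 0 < T) (hh : 0 < h)
    (h2 : 2 * Q' ∣ L) (hL : (2 * Q' * T) ^ 3 ≤ L) {δ : ℝ} (hδ : δ ≤ 1 / 16)
    {N z : ℤ√2} (hN : 4 * (Q' : ℤ√2) * N = z ^ 3 - 2 * Zsqrtd.sqrtd)
    (hz : Near δ (h * (2 * Q') * T) z) (x : ℤ√2) :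
    #{p ∈ Om Q' L (h ^ 3 * L) | xx Q' N p = x} * #(box (h ^ 3 * (2 * Q') ^ 2 * T ^ 3 * L)) ≤
      100 * #(Om Q' L (h ^ 3 * L)) := by
  set A := {p ∈ Om Q' L (h ^ 3 * L) | xx Q' N p = x} with hA
  rcases A.eq_empty_or_nonempty with h0 | ⟨p0, hp0⟩
  · rw [h0]; simp
  have hB : 0 < (2 * Q' * T) ^ 3 := by positivity
  set B := (2 * Q' * T) ^ 3 with hBdef
  have hBR : (0 : ℝ) < B := by exact_mod_cast hB
  have hLpos : (0 : ℝ) < L := by
    have : 0 < L := lt_of_lt_of_le hB hL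
    exact_mod_cast this
  set R := 32 * L / (5 * B) with hR
  have hRb : (R : ℝ) * (5 * B) ≤ 32 * L := by
    have := Nat.div_mul_le_self (32 * L) (5 * B)
    exact_mod_cast this
  -- the number of elements of the fibre
  have hcard : #A ≤ (2 * R + 1) ^ 2 := by
    have hinj : Set.InjOn (fun p : ℤ√2 × ℤ√2 => (p.1.re, p.1.im)) A := by
      intro p hp q hq hpq
      simp only [hA, coe_filter, Set.mem_ofPred_eq] at hp hq
      have h1 : p.1 = q.1 := by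
        have := Prod.ext_iff.mp hpq
        exact Zsqrtd.ext this.1 this.2
      exact pair_eq_h40 hQ hp.1 hq.1 (hp.2.trans hq.2.symm) h1
    have hmaps : ∀ p ∈ A, (fun p : ℤ√2 × ℤ√2 => (p.1.re, p.1.im)) p ∈
        Icc (p0.1.re - R) (p0.1.re + R) ×ˢ Icc (p0.1.im - R) (p0.1.im + R) := by
      intro p hp
      rw [hA, mem_filter] at hp
      have hp0' := hp0
      rw [hA, mem_filter] at hp0'
      obtain ⟨k1, k2⟩ := close_h40 hQ hT hh hδ hN hz hp.1 hp0'.1 (hp.2.trans hp0'.2.symm)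
      have conv : ∀ u : ℤ, 5 * ((2 * Q' * T : ℕ) : ℝ) ^ 3 * |(u : ℝ)| ≤ 32 * L → |u| ≤ R := by
        intro u hu
        have e1 : ((5 * B * u.natAbs : ℕ) : ℝ) ≤ ((32 * L : ℕ) : ℝ) := by
          rw [hBdef]
          push_cast
          rw [Nat.cast_natAbs, Int.cast_abs]
          push_cast at hu
          exact hu
        have e2 : 5 * B * u.natAbs ≤ 32 * L := by exact_mod_cast e1
        have e3 : u.natAbs ≤ R := by
          rw [hR, Nat.le_div_iff_mul_le (by positivity)]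
          linarith
        rw [Int.abs_eq_natAbs]
        exact_mod_cast e3
      have k3 := conv _ k1
      have k4 := conv _ k2
      rw [abs_le] at k3 k4
      simp only [mem_product, mem_Icc]
      omega
    calc #A ≤ #(Icc (p0.1.re - R) (p0.1.re + R) ×ˢ Icc (p0.1.im - R) (p0.1.im + R)) :=
          card_le_card_of_injOn _ hmaps hinj
      _ = (2 * R + 1) ^ 2 := by
          rw [card_product, Int.card_Icc, Int.card_Icc]
          have e1 : (p0.1.re + R + 1 - (p0.1.re - R)).toNat = 2 * R + 1 := by omega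
          have e2 : (p0.1.im + R + 1 - (p0.1.im - R)).toNat = 2 * R + 1 := by omega
          rw [e1, e2]; ring
  have hQ' : (0 : ℝ) < Q' := by exact_mod_cast hQ
  have hOm := card_Om (Lw := L) hQ (h2.trans (Dvd.intro_left (h ^ 3) rfl))
  have hBL : (B : ℝ) ≤ L := by exact_mod_cast hL
  have hR1 : (2 * (R : ℝ) + 1) * B ≤ 20 * L := by nlinarith
  have hR2 : (2 * (R : ℝ) + 1) ^ 2 * B ^ 2 ≤ 400 * (L : ℝ) ^ 2 := by
    have h0 : 0 ≤ (2 * (R : ℝ) + 1) * B := by positivity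
    have := mul_le_mul hR1 hR1 h0 (by positivity)
    nlinarith
  have hgoal : (#A : ℝ) * #(box (h ^ 3 * (2 * Q') ^ 2 * T ^ 3 * L)) ≤
      100 * #(Om Q' L (h ^ 3 * L)) := by
    rw [hOm, card_box]
    have h3 : (#A : ℝ) ≤ (2 * (R : ℝ) + 1) ^ 2 := by exact_mod_cast hcard
    calc (#A : ℝ) * ((2 * (h ^ 3 * (2 * Q') ^ 2 * T ^ 3 * L) ^ 2 : ℕ) : ℝ)
        ≤ (2 * (R : ℝ) + 1) ^ 2 * ((2 * (h ^ 3 * (2 * Q') ^ 2 * T ^ 3 * L) ^ 2 : ℕ) : ℝ) :=
          mul_le_mul_of_nonneg_right h3 (by positivity)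
      _ = ((2 * (R : ℝ) + 1) ^ 2 * B ^ 2) * (2 * ((h : ℝ) ^ 3 * L) ^ 2 / (2 * Q') ^ 2) := by
          rw [hBdef]; push_cast; field_simp
      _ ≤ (400 * (L : ℝ) ^ 2) * (2 * ((h : ℝ) ^ 3 * L) ^ 2 / (2 * Q') ^ 2) :=
          mul_le_mul_of_nonneg_right hR2 (by positivity)
      _ = 100 * (2 * (L : ℝ) ^ 2 * (((h ^ 3 * L : ℕ) : ℝ) / Q') ^ 2) := by
          push_cast; field_simp; norm_num
  exact_mod_cast hgoal

end Pool.Agent.helper1.PR
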